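import Mathlib
import Pool.Agent.X321.OG.Pow
import Pool.Agent.X321.OG.Rings
import Pool.Agent.X321.OG.Tower

set_option autoImplicit false

/-! # MP_d02918_lc: definable convex valuation rings with non-definable group image

We answer Q1: there is no uniform bound. For every cardinal `κ` there is an ordered field `K` with
more than `κ` nontrivial convex valuation rings `O` which are definable in the ordered field `K`
while the convex subgroup `v_nat(O*)` is not definable in the ordered group `G = v_nat(K*)`.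

Let `F` be an ultrapower of the field of real algebraic numbers, considered as a subfield of the
ultrapower of the reals, let `s` be a real transcendental number and `K = F(s)`. Then `F` is dense
in `K`, so `G` is divisible, and no convex subgroup of `G` except for `0` and `G` is definable. But
for every `t ≥ 2` in `F` the set of the powers of `t` is definable in `K`, with the parameters `s`
and `t`, and so is the ring of the elements which are bounded by a power of `t`. For a suitable
ultrafilter there are more than `κ` different rings of this form. -/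

namespace Pool.Agent.Results.MP_d02918_lc.NoUniformBound

open FirstOrder FirstOrder.Language FirstOrder.Ring Polynomial
open Pool.Agent.X321.DR (InD)
open Pool.Agent.X321.OG

/-- the valuation ring `O` is definable in the language of ordered rings, with parameters -/
def IsDefinable {K : Type} [Field K] [CompatibleRing K] [Language.order.Structure K]
    (O : ValuationSubring K) : Prop :=
  ∃ (q : ℕ) (ψ : (Language.ring.sum Language.order).Formula (Fin 1 ⊕ Fin q)) (c : Fin q → K),
    ∀ x : K, x ∈ O ↔ ψ.Realize (Sum.elim (fun _ => x) c)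

theorem result (κ : Cardinal.{0}) : ∃ (K : Type) (_ : Field K) (_ : LinearOrder K)
    (_ : IsStrictOrderedRing K) (_ : CompatibleRing K) (_ : Language.order.Structure K)
    (_ : Language.order.OrderedStructure K),
    κ < Cardinal.mk {O : ValuationSubring K // O ≠ ⊤ ∧ (O : Set K).OrdConnected ∧
      IsDefinable O ∧ ¬ GroupDefinable (Phi O)} := by
  -- the index set
  let κ' : Cardinal.{0} := Order.succ (max κ Cardinal.aleph0)
  let X : Type := κ'.ord.ToType
  have hX : Cardinal.mk X = κ' := Cardinal.mk_ord_toType κ'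
  have hκ : κ < Cardinal.mk X := by
    rw [hX]
    exact lt_of_le_of_lt (le_max_left _ _) (Order.lt_succ _)
  have hinf : Infinite X := by
    rw [Cardinal.infinite_iff, hX]
    exact (le_max_right _ _).trans (Order.le_succ _)
  let U := UX X
  obtain ⟨x0, hx0⟩ := exists_transcendental
  let s0 : GR U := of U (fun _ => x0)
  let K := IntermediateField.adjoin (FG U) {s0}
  have hord : IsStrictOrderedRing K :=
    Function.Injective.isStrictOrderedRing (fun x : K => (x : GR U)) rfl rfl (fun _ _ => rfl)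
      (fun _ _ => rfl) Iff.rfl Iff.rfl
  let s : K := IntermediateField.AdjoinSimple.gen (FG U) s0
  have hcoe : ∀ p : (FG U)[X], ((aeval s p : K) : GR U) = aeval s0 p := by
    intro p
    exact (aeval_algebraMap_apply (GR U) s p).symm
  have hs : Transcendental (FG U) s := by
    rintro ⟨p, hp, h⟩
    refine transcendental_FG x0 hx0 ⟨p, hp, ?_⟩
    change aeval s0 p = 0
    rw [← hcoe, h]
    rfl
  have hK : ∀ x : K, ∃ p q : (FG U)[X], q ≠ 0 ∧ x * aeval s q = aeval s p := by
    intro x
    obtain ⟨p, q, h⟩ := IntermediateField.mem_adjoin_simple_iff (FG U) (x : GR U) |>.1 x.2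
    by_cases hq : aeval s0 q = 0
    · refine ⟨0, 1, one_ne_zero, ?_⟩
      rw [hq, div_zero] at h
      have : x = 0 := Subtype.ext h
      rw [this, zero_mul, map_zero]
    · refine ⟨p, q, ?_, ?_⟩
      · rintro rfl
        exact hq (map_zero _)
      · apply Subtype.ext
        change (x : GR U) * ((aeval s q : K) : GR U) = _
        rw [hcoe, hcoe, h, div_mul_cancel₀ _ hq]
  let j : FG U →+* K := algebraMap (FG U) K
  have hj : ∀ x : FG U, ((j x : K) : GR U) = x := fun _ => rfl
  have hh : ∀ m : K, (∃ m0 : FG U, m = j m0) → 1 ≤ m →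
      ∃ β γ : K, 4 * β * γ = 1 ∧ β ^ 2 + γ ^ 2 = m := by
    rintro _ ⟨m0, rfl⟩ hm
    have hm' : (1 : GR U) ≤ (m0 : GR U) := hm
    have h1 : (m0 : GR U) + 1 / 2 ∈ FG U := (m0 + 1 / 2 : FG U).2
    have h2 : (m0 : GR U) - 1 / 2 ∈ FG U := (m0 - 1 / 2 : FG U).2
    obtain ⟨u, hu, hu'⟩ := FG_sqrt _ h1 (by linarith)
    obtain ⟨w, hw, hw'⟩ := FG_sqrt _ h2 (by linarith)
    have e1 : (⟨u, hu⟩ : FG U) ^ 2 = m0 + 1 / 2 := Subtype.ext hu'
    have e2 : (⟨w, hw⟩ : FG U) ^ 2 = m0 - 1 / 2 := Subtype.ext hw'
    have e3 := congrArg j e1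
    have e4 := congrArg j e2
    rw [map_pow, map_add, map_div₀, map_one, map_ofNat] at e3
    rw [map_pow, map_sub, map_div₀, map_one, map_ofNat] at e4
    refine ⟨(j ⟨u, hu⟩ - j ⟨w, hw⟩) * (1 / 2), (j ⟨u, hu⟩ + j ⟨w, hw⟩) * (1 / 2), ?_, ?_⟩
    · linear_combination e3 - e4
    · linear_combination (1 / 2) * e3 + (1 / 2) * e4
  have hcub : ∀ c : FG U, InD (j c) := by
    intro c
    obtain ⟨y, hy, hy'⟩ := FG_cube ((1 - c ^ 3 : FG U) : GR U) (1 - c ^ 3 : FG U).2
    have e1 : (⟨y, hy⟩ : FG U) ^ 3 = 1 - c ^ 3 := Subtype.ext hy'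
    have e2 := congrArg j e1
    rw [map_pow, map_sub, map_one, map_pow] at e2
    exact ⟨j ⟨y, hy⟩, by rw [e2]; ring⟩
  have hroot : ∀ (x : K) (n : ℕ), 0 < x → n ≠ 0 → ∃ y : K, x ≤ y ^ n ∧ y ^ n ≤ 2 ^ n * x := by
    intro x n hx hn
    obtain ⟨z, hz, hz'⟩ := exists_root (x : GR U) hx n hn
    obtain ⟨y, hy, h1, h2⟩ := FG_dense z (2 * z) (by linarith)
    refine ⟨j ⟨y, hy⟩, ?_, ?_⟩
    · change (x : GR U) ≤ y ^ n
      rw [← hz']
      exact pow_le_pow_left₀ hz.le h1.le n
    · change y ^ n ≤ 2 ^ n * (x : GR U)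
      rw [← hz', ← mul_pow]
      exact pow_le_pow_left₀ (hz.trans h1).le h2.le n
  -- the elements
  let t0 : X → FG U := fun α => ⟨tG α, tG_mem α⟩
  let t : X → K := fun α => j (t0 α)
  have ht : ∀ α, 2 ≤ t α := fun α => by
    change (2 : GR U) ≤ tG α
    exact_mod_cast (natCast_lt_tG α 2).le
  have htlt : ∀ α β, α < β → ∀ n, t α ^ n < t β := fun α β h n => tG_lt h n
  let hcr : CompatibleRing K := compatibleRingOfRing K
  let hos : Language.order.Structure K := orderStructure K
  have hoo : Language.order.OrderedStructure K := ⟨fun _ => Iff.rfl⟩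
  refine ⟨K, inferInstance, inferInstance, hord, hcr, hos, hoo, lt_of_lt_of_le hκ ?_⟩
  obtain ⟨ψ, hψ⟩ := exists_formula' (K := K)
  have hdef : ∀ α, IsDefinable (ringOf (t α) (ht α)) := by
    intro α
    refine ⟨2, ψ, ![s, t α], fun x => ?_⟩
    rw [← hψ, mem_ringOf]
    constructor
    · rintro ⟨n, hn⟩
      exact ⟨t α ^ n, pw_of hs hK (t0 α) (ht α) hh (fun n => by
        rw [← map_pow]; exact hcub _) n, (le_abs_self x).trans hn, (neg_le_abs x).trans hn⟩
    · rintro ⟨c, hc1, h1, h2⟩
      rcases of_pw hs hK (t0 α) (ht α) hc1 with rfl | ⟨n, rfl⟩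
      · refine ⟨0, ?_⟩
        rw [pow_zero]
        exact (abs_le.2 ⟨by linarith, h1⟩).trans zero_le_one
      · exact ⟨n, abs_le.2 ⟨by linarith, h1⟩⟩
  have htop : ∀ α, ringOf (t α) (ht α) ≠ ⊤ := by
    intro α h
    have h1 : j ⟨wG, wG_mem⟩ ∈ ringOf (t α) (ht α) := by
      rw [h]
      trivial
    obtain ⟨n, hn⟩ := h1
    have h2 : j ⟨wG, wG_mem⟩ ≤ t α ^ n := (le_abs_self _).trans hn
    have h3 : (wG : GR U) ≤ tG α ^ n := h2
    exact absurd (tG_lt_wG α n) (not_lt.2 h3)
  have hself : ∀ α, t α ∈ ringOf (t α) (ht α) := fun α => ⟨1, by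
    rw [pow_one, abs_of_nonneg (by linarith [ht α])]⟩
  have hnat : ∀ α, ∃ x ∈ ringOf (t α) (ht α), x ∉ natRing K := by
    intro α
    refine ⟨t α, hself α, ?_⟩
    rintro ⟨n, hn⟩
    have h2 : t α ≤ (n : K) := (le_abs_self _).trans hn
    have h3 : tG α ≤ (n : GR U) := h2
    exact absurd (natCast_lt_tG α n) (not_lt.2 h3)
  refine Cardinal.mk_le_of_injective (f := fun α : X =>
    (⟨ringOf (t α) (ht α), htop α, ringOf_conv _ _, hdef α,
      not_definable hroot _ (ringOf_conv _ _) (htop α) (hnat α)⟩ :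
      {O : ValuationSubring K // O ≠ ⊤ ∧ (O : Set K).OrdConnected ∧
        IsDefinable O ∧ ¬ GroupDefinable (Phi O)})) ?_
  have key : ∀ α β, α < β → ringOf (t α) (ht α) ≠ ringOf (t β) (ht β) := by
    intro α β h e
    have h1 := hself β
    rw [← e] at h1
    obtain ⟨n, hn⟩ := h1
    exact absurd (htlt α β h n) (not_lt.2 ((le_abs_self _).trans hn))
  intro α β h
  have h' : ringOf (t α) (ht α) = ringOf (t β) (ht β) := congrArg Subtype.val h
  rcases lt_trichotomy α β with h1 | h1 | h1
  · exact absurd h' (key α β h1)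
  · exact h1
  · exact absurd h'.symm (key β α h1)

end Pool.Agent.Results.MP_d02918_lc.NoUniformBound
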